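import Pool.Agent.H61.KW.TB

set_option autoImplicit false

open Topology Set
open Pool.Agent.H59 Pool.Agent.H64.LB Pool.Agent.H61.KU Pool.Agent.H61.KV Pool.Agent.H61.KW

namespace Pool.Agent.H68.KW.LN3

theorem pf_LIN3 (hHM : T_HM) : T_LIN3 := by
  intro A φ hA hφ
  let B : (Fin 3 → ℝ) ≃ₗ[ℝ] (Fin 3 → ℝ) := LinearEquiv.ofInjectiveEndo A hA
  have hB : ∀ v, B v = A v := fun v => rfl
  have hcB : Continuous B.symm := LinearMap.continuous_of_finiteDimensional B.symm.toLinearMap
  have hr0 : ∀ y : {y : Fin 3 → ℝ // y ≠ 0}, B.symm y.1 ≠ 0 := by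
    intro y h
    exact y.2 ((LinearEquiv.map_eq_zero_iff B.symm).1 h)
  let r : C({y : Fin 3 → ℝ // y ≠ 0}, Sph 2) :=
    ⟨fun y => ⟨B.symm y.1, hr0 y⟩, Continuous.subtype_mk (hcB.comp continuous_subtype_val) _⟩
  have hrφ : ∀ u : Sph 2, ∃ c : ℝ, 0 < c ∧ B.symm (φ u).1 = c • u.1 := by
    intro u
    obtain ⟨c, hc, he⟩ := hφ u
    refine ⟨c, hc, ?_⟩
    rw [he, ← hB, map_smul, LinearEquiv.symm_apply_apply]
  have hne : ∀ (t : unitInterval) (u : Sph 2),
      (1 - (t : ℝ)) • B.symm (φ u).1 + (t : ℝ) • u.1 ≠ 0 := by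
    intro t u
    obtain ⟨c, hc, he⟩ := hrφ u
    rw [he, smul_smul, ← add_smul]
    have h0 : 0 ≤ (t : ℝ) := t.2.1
    have h1 : (t : ℝ) ≤ 1 := t.2.2
    have hpos : 0 < (1 - (t : ℝ)) * c + (t : ℝ) := by
      rcases h1.lt_or_eq with h | h
      · have : 0 < (1 - (t : ℝ)) * c := mul_pos (by linarith) hc
        linarith
      · rw [h]; norm_num
    exact smul_ne_zero (ne_of_gt hpos) u.2
  have hcφ : Continuous fun p : unitInterval × Sph 2 => B.symm (φ p.2).1 :=
    hcB.comp (continuous_subtype_val.comp (φ.continuous.comp continuous_snd))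
  have ht : Continuous fun p : unitInterval × Sph 2 => (p.1 : ℝ) :=
    continuous_subtype_val.comp continuous_fst
  have hhom : (r.comp φ).Homotopic (ContinuousMap.id (Sph 2)) := by
    refine ⟨{ toFun := fun p => ⟨(1 - (p.1 : ℝ)) • B.symm (φ p.2).1 + (p.1 : ℝ) • p.2.1,
                hne p.1 p.2⟩
              continuous_toFun := ?_
              map_zero_left := ?_
              map_one_left := ?_ }⟩
    · exact Continuous.subtype_mk (((continuous_const.sub ht).smul hcφ).add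
        (ht.smul (continuous_subtype_val.comp continuous_snd))) _
    · intro u
      apply Subtype.ext
      show (1 - ((0 : unitInterval) : ℝ)) • B.symm (φ u).1 + ((0 : unitInterval) : ℝ) • u.1 = B.symm (φ u).1
      simp
    · intro u
      apply Subtype.ext
      show (1 - ((1 : unitInterval) : ℝ)) • B.symm (φ u).1 + ((1 : unitInterval) : ℝ) • u.1 = u.1
      simp
  have hm := hHM (ZMod 2) _ _ _ _ hhom 2
  intro a b hab
  have e1 : HH.map (ZMod 2) 2 (r.comp φ) a = HH.map (ZMod 2) 2 (r.comp φ) b := by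
    rw [HH.map_comp, HH.map_comp, hab]
  rw [hm, HH.map_id, HH.map_id] at e1
  exact e1

end Pool.Agent.H68.KW.LN3
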