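import Pool.Agent.H61.KW.TA

set_option autoImplicit false

open Set

namespace Pool.Agent.H68.KW.SH4

open Pool.Agent.H61.KV Pool.Agent.H61.KW

theorem pf_SH4 (h : T_XSP) (h2 : T_RK2) (h3 : T_THN) : T_SH4 := by
  intro V _ _ _ C q b hB hb4
  have hC := hB.cc
  have hq := hB.hq
  have hbq : b ∈ Fc C q := hB.hb
  -- ranks
  have hnb : ∀ s ∈ C, rk C s < 4 → b ∉ Fc C s := by
    intro s hs hr hbs
    have := rk_mono hC hs hbs
    omega
  have hnx : ∀ x, Ex C x → b ∉ Fc C x := by
    intro x hx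
    apply hnb x hx.1
    rw [ex_rk hC hx]; norm_num
  have h1 : ∀ x y, Ex C x → Ex C y → x ∈ Fc C q → y ∈ Fc C q → q ∉ Fc C (x + y) := by
    intro x y hx hy hxq hyq
    exact hB.ncc x y hx hy hxq hyq (hnx x hx) (hnx y hy)
  have hs3 : ∀ s ∈ Fc C q, rk C s = 3 → Smp C 3 s := by
    intro s hs hr
    obtain ⟨t, ht, htq, htn⟩ := h V C q (Sp C s) hC hq (by
      have : Module.finrank ℝ (Sp C s) = 3 := hr
      rw [this, hB.rk4]; norm_num)
    exact hB.trc s t hr ht hs htq (fun hts => htn (mem_sp hts)) (hnb s (mem_C hs) (by omega)) (hnx t ht)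
  have hr2 : ∀ x y, Ex C x → Ex C y → x ∈ Fc C q → y ∈ Fc C q → y ∉ Fc C x → rk C (x + y) = 2 := by
    intro x y hx hy hxq hyq hyx
    have hxy : x + y ∈ Fc C q := add_fc hC hq hxq hyq
    have ha : rk C x < rk C (x + y) := rk_add_ex hC hx.1 hy.1 hyx
    rw [ex_rk hC hx] at ha
    have hlt : rk C (x + y) < 4 := by
      by_contra hge
      rw [not_lt] at hge
      exact h1 x y hx hy hxq hyq (of_rk hC hq hxy (by rw [hB.rk4]; exact hge))
    by_contra hne
    have h33 : rk C (x + y) = 3 := by omega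
    have hsm := hs3 _ hxy h33
    exact hne ((h2 V C hC).2 (x + y) x y (mem_C hxy) hsm hx hy (left_fc hC hx.1 hy.1)
      (right_fc hC hx.1 hy.1) hyx)
  have h4 : ∀ x y z, Ex C x → Ex C y → Ex C z → x ∈ Fc C q → y ∈ Fc C q → z ∈ Fc C q →
      q ∉ Fc C (x + y + z) := by
    intro x y z hx hy hz hxq hyq hzq hqq
    by_cases hyx : y ∈ Fc C x
    · have hxz : x + z ∈ C := mem_C (add_fc hC hq hxq hzq)
      have e1 : x ∈ Fc C (x + z) := left_fc hC hx.1 hz.1
      have e2 : y ∈ Fc C (x + z) := tra hC hxz e1 hyx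
      have e3 : z ∈ Fc C (x + z) := right_fc hC hx.1 hz.1
      have e4 : x + y + z ∈ Fc C (x + z) := add_fc hC hxz (add_fc hC hxz e1 e2) e3
      exact h1 x z hx hz hxq hzq (tra hC hxz e4 hqq)
    · have hr := hr2 x y hx hy hxq hyq hyx
      have hxy : x + y ∈ Fc C q := add_fc hC hq hxq hyq
      exact hB.ii2 (x + y) z hr hz hxy hzq (hnb _ (mem_C hxy) (by omega)) (hnx z hz) hqq
  have hind : ∀ n, n ≤ 4 → ∃ x : Fin n → V, LinearIndependent ℝ x ∧
      ∀ i, Ex C (x i) ∧ x i ∈ Fc C q := by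
    intro n
    induction n with
    | zero =>
      intro _
      exact ⟨fun i => i.elim0, linearIndependent_empty_type, fun i => i.elim0⟩
    | succ n ih =>
      intro hn
      obtain ⟨x, hx, hxe⟩ := ih (by omega)
      obtain ⟨y, hy, hyq, hyn⟩ := h V C q (Submodule.span ℝ (Set.range x)) hC hq (by
        rw [finrank_span_eq_card hx, hB.rk4, Fintype.card_fin]; omega)
      refine ⟨Fin.snoc (α := fun _ => V) x y, ?_, ?_⟩
      · exact linearIndependent_finSnoc.2 ⟨hx, hyn⟩
      · intro i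
        refine Fin.lastCases ?_ (fun j => ?_) i
        · rw [Fin.snoc_last]; exact ⟨hy, hyq⟩
        · rw [Fin.snoc_castSucc]; exact hxe j
  obtain ⟨x, hx, hxe⟩ := hind 4 le_rfl
  refine ⟨x, h3 V C q 4 x hC hq hB.rk4 hx (fun i => (hxe i).1) (fun i => (hxe i).2) ?_⟩
  have key : ∀ a b c : Fin 4, q ∉ Fc C (x a + x b + x c) := fun a b c =>
    h4 _ _ _ (hxe a).1 (hxe b).1 (hxe c).1 (hxe a).2 (hxe b).2 (hxe c).2
  intro i
  have hsum : ∃ a b c : Fin 4, ∑ j ∈ Finset.univ.erase i, x j = x a + x b + x c := by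
    fin_cases i
    · refine ⟨1, 2, 3, ?_⟩
      have : (Finset.univ.erase (0 : Fin 4)) = {1, 2, 3} := by decide
      show ∑ j ∈ Finset.univ.erase (0 : Fin 4), x j = _
      rw [this, Finset.sum_insert (by decide), Finset.sum_insert (by decide), Finset.sum_singleton,
        add_assoc]
    · refine ⟨0, 2, 3, ?_⟩
      have : (Finset.univ.erase (1 : Fin 4)) = {0, 2, 3} := by decide
      show ∑ j ∈ Finset.univ.erase (1 : Fin 4), x j = _
      rw [this, Finset.sum_insert (by decide), Finset.sum_insert (by decide), Finset.sum_singleton,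
        add_assoc]
    · refine ⟨0, 1, 3, ?_⟩
      have : (Finset.univ.erase (2 : Fin 4)) = {0, 1, 3} := by decide
      show ∑ j ∈ Finset.univ.erase (2 : Fin 4), x j = _
      rw [this, Finset.sum_insert (by decide), Finset.sum_insert (by decide), Finset.sum_singleton,
        add_assoc]
    · refine ⟨0, 1, 2, ?_⟩
      have : (Finset.univ.erase (3 : Fin 4)) = {0, 1, 2} := by decide
      show ∑ j ∈ Finset.univ.erase (3 : Fin 4), x j = _
      rw [this, Finset.sum_insert (by decide), Finset.sum_insert (by decide), Finset.sum_singleton,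
        add_assoc]
  obtain ⟨a, b', c, hs⟩ := hsum
  rw [hs]
  exact key a b' c

end Pool.Agent.H68.KW.SH4
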