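import Pool.Agent.H61.KW.TA

set_option autoImplicit false

open Set

namespace Pool.Agent.H68.KW.SHB

open Pool.Agent.H61.KV Pool.Agent.H61.KW

theorem pf_SHB (h : T_FIN) : T_SHB := by
  intro V _ _ _ C q big hC hq hbq hb0 hup hint
  have hex : ∃ n, ∃ b, b ∈ Fc C q ∧ big b ∧ rk C b = n := ⟨_, q, self hC hq, hbq, rfl⟩
  classical
  obtain ⟨b, hb, hbb, hbn⟩ := Nat.find_spec hex
  have hmin : ∀ b', b' ∈ Fc C q → big b' → rk C b ≤ rk C b' := by
    intro b' h1 h2
    rw [hbn]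
    exact Nat.find_min' hex ⟨b', h1, h2, rfl⟩
  refine ⟨b, hb, ?_, ?_⟩
  · intro h0
    rw [h0] at hbb
    exact hb0 hbb
  · intro s hs
    constructor
    · intro hbs
      obtain ⟨r, hrC, hr⟩ := h V C b s hC (mem_C hb) (mem_C hs)
      have hbr : big r := hint b hb s hs r hrC hr hbb hbs
      have hrb : r ∈ Fc C b := ((hr r).1 (self hC hrC)).1
      have hrq : r ∈ Fc C q := tra hC hq hb hrb
      have hbr' : b ∈ Fc C r := of_rk hC (mem_C hb) hrb (hmin r hrq hbr)
      exact ((hr b).1 hbr').2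
    · intro hbs
      exact hup s hs b hbs hbb

end Pool.Agent.H68.KW.SHB
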